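import Mathlib
import Pool.Agent.TH264.MC.Simplex

/-!
# Simplicial cones: volume of the truncated cone times volume of the symmetric polar

For `C` the nonnegative span of a basis `b` of `Fin N → ℝ` with `b i ⬝ᵥ e > 0`, the set
`T = {x ∈ C | x ⬝ᵥ e ≤ 1}` is a simplex with vertex `0` and `{y | ∀ x ∈ T, |x ⬝ᵥ y| ≤ 1}` is a
parallelotope; the product of their volumes is `2 ^ N / N !`.
Also: the cone over `K × {1}` is simplicial iff `K` is a simplex.
-/

set_option autoImplicit false

open MeasureTheory Set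
open scoped ENNReal Pointwise Matrix

namespace Pool.Agent.TH648.MK

variable {N : ℕ}

/-- nonnegative span of a finite family -/
def nnspan (b : Fin N → (Fin N → ℝ)) : Set (Fin N → ℝ) :=
  {x | ∃ t : Fin N → ℝ, (∀ i, 0 ≤ t i) ∧ x = ∑ i, t i • b i}

lemma det_ne_zero_of_li (M : Matrix (Fin N) (Fin N) ℝ) (h : LinearIndependent ℝ fun i => M i) :
    M.det ≠ 0 := by
  have h1 : IsUnit M := Matrix.linearIndependent_rows_iff_isUnit.1 h
  exact ((Matrix.isUnit_iff_isUnit_det _).1 h1).ne_zero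

/-- **the value for a simplicial cone**, normalised generators -/
theorem value_normalised (b : Fin N → (Fin N → ℝ)) (hb : LinearIndependent ℝ b) (e : Fin N → ℝ)
    (he : ∀ i, b i ⬝ᵥ e = 1) :
    volume {x | x ∈ nnspan b ∧ x ⬝ᵥ e ≤ 1} *
      volume {y | ∀ x, x ∈ nnspan b → x ⬝ᵥ e ≤ 1 → |x ⬝ᵥ y| ≤ 1} =
      ENNReal.ofReal (2 ^ N / N.factorial) := by
  set M : Matrix (Fin N) (Fin N) ℝ := Matrix.of b with hM
  have hdet : M.det ≠ 0 := det_ne_zero_of_li M hb
  have hsum : ∀ t : Fin N → ℝ, (∑ i, t i • b i) = Matrix.toLin' Mᵀ t := by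
    intro t
    rw [Matrix.toLin'_apply]
    funext j
    simp only [Finset.sum_apply, Pi.smul_apply, smul_eq_mul, Matrix.mulVec, dotProduct,
      Matrix.transpose_apply, hM, Matrix.of_apply]
    exact Finset.sum_congr rfl fun i _ => mul_comm _ _
  have hdot : ∀ t : Fin N → ℝ, (∑ i, t i • b i) ⬝ᵥ e = ∑ i, t i := by
    intro t
    rw [sum_dotProduct]
    exact Finset.sum_congr rfl fun i _ => by rw [smul_dotProduct, he i, smul_eq_mul, mul_one]
  have e1 : {x | x ∈ nnspan b ∧ x ⬝ᵥ e ≤ 1} = Matrix.toLin' Mᵀ '' Pool.Agent.TH264.MC.S N := by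
    ext x
    constructor
    · rintro ⟨⟨t, ht, rfl⟩, h1⟩
      rw [hdot] at h1
      exact ⟨t, ⟨ht, h1⟩, (hsum t).symm⟩
    · rintro ⟨t, ⟨ht, h1⟩, rfl⟩
      refine ⟨⟨t, ht, (hsum t).symm⟩, ?_⟩
      rw [← hsum, hdot]
      exact h1
  have e2 : {y | ∀ x, x ∈ nnspan b → x ⬝ᵥ e ≤ 1 → |x ⬝ᵥ y| ≤ 1} =
      Matrix.toLin' M ⁻¹' (Icc (fun _ => -1) (fun _ => 1)) := by
    ext y
    simp only [mem_ofPred_eq, mem_preimage, Matrix.toLin'_apply, mem_Icc, Pi.le_def]
    have hMy : ∀ i, (M *ᵥ y) i = b i ⬝ᵥ y := fun i => rfl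
    simp only [hMy]
    constructor
    · intro h
      have h1 : ∀ i, |b i ⬝ᵥ y| ≤ 1 := by
        intro i
        refine h (b i) ⟨Pi.single i 1, ?_, ?_⟩ (he i).le
        · intro j
          by_cases hj : j = i
          · subst hj; simp
          · simp [hj]
        · simp [Pi.single_apply]
      exact ⟨fun i => (abs_le.1 (h1 i)).1, fun i => (abs_le.1 (h1 i)).2⟩
    · rintro ⟨h1, h2⟩ x ⟨t, ht, rfl⟩ hx
      rw [hdot] at hx
      rw [sum_dotProduct]
      calc |∑ i, (t i • b i) ⬝ᵥ y| ≤ ∑ i, |(t i • b i) ⬝ᵥ y| := Finset.abs_sum_le_sum_abs _ _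
        _ ≤ ∑ i, t i := Finset.sum_le_sum fun i _ => by
            rw [smul_dotProduct, smul_eq_mul, abs_mul, abs_of_nonneg (ht i)]
            have : |b i ⬝ᵥ y| ≤ 1 := abs_le.2 ⟨h1 i, h2 i⟩
            nlinarith [ht i]
        _ ≤ 1 := hx
  rw [e1, e2, Measure.addHaar_image_linearMap, Measure.addHaar_preimage_linearMap _ (by
    rw [LinearMap.det_toLin']; exact hdet), LinearMap.det_toLin', LinearMap.det_toLin',
    Matrix.det_transpose, Real.volume_Icc_pi]
  have hS : volume (Pool.Agent.TH264.MC.S N) = ENNReal.ofReal (1 / (N.factorial : ℝ)) := by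
    rw [← Pool.Agent.TH264.MC.volume_S N, Measure.real, ENNReal.ofReal_toReal]
    exact (Pool.Agent.TH264.MC.S_isCompact N).measure_lt_top.ne
  rw [hS]
  have hp : ∏ _i : Fin N, ENNReal.ofReal ((1 : ℝ) - (-1)) = ENNReal.ofReal (2 ^ N) := by
    rw [Finset.prod_const, Finset.card_univ, Fintype.card_fin, ← ENNReal.ofReal_pow (by norm_num)]
    norm_num
  rw [hp, ← ENNReal.ofReal_mul (abs_nonneg _), ← ENNReal.ofReal_mul (abs_nonneg _),
    ← ENNReal.ofReal_mul (by positivity)]
  congr 1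
  have h3 : |M.det| ≠ 0 := abs_ne_zero.2 hdet
  rw [abs_inv]
  field_simp

/-- **the value for a simplicial cone** -/
theorem simplex_cone_value (b : Fin N → (Fin N → ℝ)) (hb : LinearIndependent ℝ b)
    (e : Fin N → ℝ) (he : ∀ i, 0 < b i ⬝ᵥ e) {C : Set (Fin N → ℝ)}
    (hC : C = {x | ∃ t : Fin N → ℝ, (∀ i, 0 ≤ t i) ∧ x = ∑ i, t i • b i}) :
    volume {x | x ∈ C ∧ x ⬝ᵥ e ≤ 1} *
      volume {y | ∀ x, x ∈ C → x ⬝ᵥ e ≤ 1 → |x ⬝ᵥ y| ≤ 1} =
      ENNReal.ofReal (2 ^ N / N.factorial) := by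
  set c : Fin N → ℝ := fun i => b i ⬝ᵥ e with hc
  set b' : Fin N → (Fin N → ℝ) := fun i => (c i)⁻¹ • b i with hb'
  have hcn : ∀ i, c i ≠ 0 := fun i => (he i).ne'
  have hli : LinearIndependent ℝ b' := by
    have h := hb.units_smul (fun i => (Units.mk0 (c i) (hcn i))⁻¹)
    have h2 : b' = (fun i => (Units.mk0 (c i) (hcn i))⁻¹) • b := by
      funext i
      rw [Pi.smul_apply', Units.smul_def]
      simp [hb']
    rw [h2]
    exact h
  have he' : ∀ i, b' i ⬝ᵥ e = 1 := by
    intro i
    simp only [hb', smul_dotProduct, smul_eq_mul]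
    exact inv_mul_cancel₀ (hcn i)
  have hCC : C = nnspan b' := by
    rw [hC]
    ext x
    constructor
    · rintro ⟨t, ht, rfl⟩
      refine ⟨fun i => t i * c i, fun i => mul_nonneg (ht i) (he i).le, ?_⟩
      refine Finset.sum_congr rfl fun i _ => ?_
      simp only [hb', smul_smul]
      rw [mul_assoc, mul_inv_cancel₀ (hcn i), mul_one]
    · rintro ⟨t, ht, rfl⟩
      refine ⟨fun i => t i * (c i)⁻¹, fun i => mul_nonneg (ht i) (inv_nonneg.2 (he i).le), ?_⟩
      refine Finset.sum_congr rfl fun i _ => ?_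
      simp only [hb', smul_smul]
  rw [hCC]
  exact value_normalised b' hli e he'

/-! ### cones over simplices -/

variable {n : ℕ}

/-- the cone over `K × {1}`; the height is the coordinate `0` -/
def coneOver (K : Set (Fin n → ℝ)) : Set (Fin (n + 1) → ℝ) :=
  {z | ∃ t : ℝ, 0 ≤ t ∧ ∃ x ∈ K, z = Fin.cons t (t • x)}

lemma sum_cons_one (p : Fin (n + 1) → (Fin n → ℝ)) (t : Fin (n + 1) → ℝ) :
    ∑ i, t i • (Fin.cons 1 (p i) : Fin (n + 1) → ℝ) =
      (Fin.cons (∑ i, t i) (∑ i, t i • p i) : Fin (n + 1) → ℝ) := by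
  funext j
  refine Fin.cases ?_ (fun k => ?_) j
  · simp [Finset.sum_apply]
  · simp [Finset.sum_apply]

/-- affine independence is linear independence of the lifted points -/
theorem affineIndependent_iff_cons (p : Fin (n + 1) → (Fin n → ℝ)) :
    AffineIndependent ℝ p ↔
      LinearIndependent ℝ (fun i => (Fin.cons 1 (p i) : Fin (n + 1) → ℝ)) := by
  rw [Fintype.linearIndependent_iff]
  constructor
  · intro h g hg
    rw [sum_cons_one] at hg
    have h0 : ∑ i, g i = 0 := by
      have := congrFun hg 0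
      simpa using this
    have h1 : ∑ i, g i • p i = 0 := by
      funext k
      have := congrFun hg k.succ
      simpa using this
    intro i
    exact affineIndependent_iff.1 h Finset.univ g h0 h1 i (Finset.mem_univ i)
  · intro h
    rw [affineIndependent_iff]
    intro s w h0 h1 i hi
    set g : Fin (n + 1) → ℝ := fun j => if j ∈ s then w j else 0 with hg
    have hg0 : ∑ j, g j = 0 := by
      rw [← h0]; simp [hg, Finset.sum_ite_mem]
    have hg1 : ∑ j, g j • p j = 0 := by
      rw [← h1]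
      simp only [hg, ite_smul, zero_smul]
      simp [Finset.sum_ite_mem]
    have h2 := h g (by
      rw [sum_cons_one, hg0, hg1]
      funext j
      refine Fin.cases ?_ (fun k => ?_) j <;> simp) i
    simpa [hg, hi] using h2

/-- the cone over a simplex is simplicial -/
theorem coneOver_simplex (p : Fin (n + 1) → (Fin n → ℝ)) :
    coneOver (convexHull ℝ (range p)) =
      {z | ∃ t : Fin (n + 1) → ℝ, (∀ i, 0 ≤ t i) ∧
        z = ∑ i, t i • (Fin.cons 1 (p i) : Fin (n + 1) → ℝ)} := by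
  ext z
  constructor
  · rintro ⟨t, ht, x, hx, rfl⟩
    rw [convexHull_range_eq_exists_affineCombination] at hx
    obtain ⟨s, w, hw0, hw1, rfl⟩ := hx
    rw [Finset.affineCombination_eq_linear_combination _ _ _ hw1]
    refine ⟨fun j => if j ∈ s then t * w j else 0, ?_, ?_⟩
    · intro j
      by_cases hj : j ∈ s
      · simp only [hj, if_true]; exact mul_nonneg ht (hw0 j hj)
      · simp [hj]
    · rw [sum_cons_one]
      congr 1
      · rw [Finset.sum_ite_mem, Finset.univ_inter, ← Finset.mul_sum, hw1, mul_one]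
      · simp only [ite_smul, zero_smul]
        rw [Finset.sum_ite_mem, Finset.univ_inter, Finset.smul_sum]
        refine Finset.sum_congr rfl fun j _ => ?_
        rw [smul_smul]
  · rintro ⟨t, ht, rfl⟩
    rw [sum_cons_one]
    have hT : 0 ≤ ∑ i, t i := Finset.sum_nonneg fun i _ => ht i
    rcases hT.lt_or_eq with h | h
    · refine ⟨∑ i, t i, hT, (∑ i, t i)⁻¹ • ∑ i, t i • p i, ?_, ?_⟩
      · rw [Finset.smul_sum]
        simp only [smul_smul]
        refine (convex_convexHull ℝ _).sum_mem (fun i _ => mul_nonneg (inv_nonneg.2 hT) (ht i)) ?_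
          (fun i _ => subset_convexHull ℝ _ (mem_range_self i))
        rw [← Finset.mul_sum, inv_mul_cancel₀ h.ne']
      · rw [smul_smul, mul_inv_cancel₀ h.ne', one_smul]
    · have h0 : ∀ i, t i = 0 := by
        intro i
        have := (Finset.sum_eq_zero_iff_of_nonneg (fun i _ => ht i)).1 h.symm i (Finset.mem_univ i)
        exact this
      refine ⟨0, le_rfl, p 0, subset_convexHull ℝ _ (mem_range_self 0), ?_⟩
      simp [h0]

/-- a convex set over which the cone is simplicial is a simplex -/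
theorem simplex_of_coneOver {K : Set (Fin n → ℝ)} (hK : Convex ℝ K)
    (b : Fin (n + 1) → (Fin (n + 1) → ℝ)) (hb : LinearIndependent ℝ b)
    (h : coneOver K = {z | ∃ t : Fin (n + 1) → ℝ, (∀ i, 0 ≤ t i) ∧ z = ∑ i, t i • b i}) :
    ∃ p : Fin (n + 1) → (Fin n → ℝ), AffineIndependent ℝ p ∧ K = convexHull ℝ (range p) := by
  have h1 : ∀ i, ∃ t : ℝ, 0 < t ∧ ∃ x ∈ K, b i = Fin.cons t (t • x) := by
    intro i
    have h2 : b i ∈ coneOver K := by
      rw [h]
      refine ⟨Pi.single i 1, fun j => ?_, by simp [Pi.single_apply]⟩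
      by_cases hj : j = i
      · subst hj; simp
      · simp [hj]
    obtain ⟨t, ht, x, hx, hbx⟩ := h2
    rcases ht.lt_or_eq with h3 | h3
    · exact ⟨t, h3, x, hx, hbx⟩
    · exfalso
      apply hb.ne_zero i
      rw [hbx, ← h3, zero_smul]
      funext j
      refine Fin.cases ?_ (fun k => ?_) j <;> simp
  choose c hc p hp hbp using h1
  have hbp' : ∀ i, b i = c i • (Fin.cons 1 (p i) : Fin (n + 1) → ℝ) := by
    intro i
    rw [hbp i]
    funext j
    refine Fin.cases ?_ (fun k => ?_) j <;> simp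
  refine ⟨p, ?_, ?_⟩
  · rw [affineIndependent_iff_cons]
    have h2 := hb.units_smul (fun i => (Units.mk0 (c i) (hc i).ne')⁻¹)
    convert h2 using 1
    funext i
    rw [Pi.smul_apply', hbp' i, Units.smul_def, smul_smul]
    simp [(hc i).ne']
  · apply Subset.antisymm
    · intro x hx
      have h2 : (Fin.cons 1 x : Fin (n + 1) → ℝ) ∈ coneOver K := ⟨1, zero_le_one, x, hx, by simp⟩
      rw [h] at h2
      obtain ⟨t, ht, htx⟩ := h2
      have h3 : ∑ i, t i • b i = ∑ i, (t i * c i) • (Fin.cons 1 (p i) : Fin (n + 1) → ℝ) := by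
        refine Finset.sum_congr rfl fun i _ => ?_
        rw [hbp' i, smul_smul]
      rw [h3, sum_cons_one] at htx
      have h4 : (1 : ℝ) = ∑ i, t i * c i := by
        have := congrFun htx 0
        simpa using this
      have h5 : x = ∑ i, (t i * c i) • p i := by
        funext k
        have := congrFun htx k.succ
        simpa using this
      rw [h5]
      exact (convex_convexHull ℝ _).sum_mem (fun i _ => mul_nonneg (ht i) (hc i).le) h4.symm
        (fun i _ => subset_convexHull ℝ _ (mem_range_self i))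
    · refine convexHull_min ?_ hK
      rintro _ ⟨i, rfl⟩
      exact hp i

end Pool.Agent.TH648.MK
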