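import Pool.Agent.H296R3.NM.RS
import Pool.Agent.TH537.EQ.Defs
import Pool.Agent.TH648.MK.Simp

/-!
# Makai's inequality `|K| |(K-K)°| ≥ (n+1)/n!` in coordinates, and its equality case

`K` convex body in `ℝⁿ` with the origin in its interior, `gw K` the support function of `K - K`.
-/

set_option autoImplicit false

open MeasureTheory Set
open scoped ENNReal Pointwise Matrix

namespace Pool.Agent.TH648.MK

open Pool.Agent.H845R2 Pool.Agent.H845R3 Pool.Agent.H296R3.NM
open Pool.Agent.TH537.EQ (CN Pos T HT S_RS S_LC)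

variable {n : ℕ} {K : Set (Fin n → ℝ)}

/-- `{y : gw K y < 1}` has positive finite volume -/
lemma gw_vol_pos (hK : NB K) : 0 < volume {y | gw K y < 1} := by
  have h1 : IsOpen {y | gw K y < 1} := isOpen_lt (gw_cont hK) continuous_const
  refine h1.measure_pos volume ⟨0, ?_⟩
  have h2 : gw K 0 = 0 := by
    have := gw_smul hK (c := 2) (by norm_num) 0
    rw [smul_zero] at this
    linarith
  show gw K 0 < 1
  rw [h2]; exact one_pos

lemma gw_vol_fin (hK : NB K) : volume {y | gw K y < 1} ≠ ⊤ := by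
  obtain ⟨r, hr, hb⟩ := Metric.mem_nhds_iff.1 (mem_interior_iff_mem_nhds.1 hK.zero)
  have h1 : {y | gw K y < 1} ⊆ Icc (fun _ : Fin n => -(2 / r)) (fun _ => 2 / r) := by
    intro y hy
    have hy' : gw K y < 1 := hy
    have key : ∀ i, |y i| ≤ 2 / r := by
      intro i
      have h3 : (r / 2) • (Pi.single i 1 : Fin n → ℝ) ∈ K := by
        apply hb
        rw [mem_ball_zero_iff, norm_smul, Pi.norm_single, norm_one, mul_one, Real.norm_eq_abs,
          abs_of_pos (by positivity)]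
        linarith
      have e1 : y ⬝ᵥ ((r / 2) • (Pi.single i 1 : Fin n → ℝ)) = r / 2 * y i := by
        rw [dotProduct_smul, dotProduct_single, mul_one, smul_eq_mul]
      have e2 : (-y) ⬝ᵥ ((r / 2) • (Pi.single i 1 : Fin n → ℝ)) = -(r / 2 * y i) := by
        rw [neg_dotProduct, e1]
      have h4 := hK.le_hs y h3
      have h5 := hK.le_hs (-y) h3
      rw [e1] at h4
      rw [e2] at h5
      have h6 := hK.hs_nonneg y
      have h7 := hK.hs_nonneg (-y)
      unfold gw at hy'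
      rw [abs_le]
      constructor
      · rw [neg_le, div_eq_mul_inv, ← div_eq_mul_inv, le_div_iff₀ hr]
        nlinarith
      · rw [le_div_iff₀ hr]
        nlinarith
    exact ⟨fun i => (abs_le.1 (key i)).1, fun i => (abs_le.1 (key i)).2⟩
  exact ((measure_mono h1).trans_lt isCompact_Icc.measure_lt_top).ne

lemma K_vol_fin (hK : NB K) : volume K ≠ ⊤ := hK.comp.measure_lt_top.ne

/-- the arithmetic of the constants -/
lemma const_eq (n : ℕ) : ENNReal.ofReal ((4 : ℝ) ^ (n + 1) / (n + 1).factorial) =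
    ENNReal.ofReal (2 ^ (n + 1) / ((n:ℝ) + 1)) * ENNReal.ofReal (2 ^ (n + 1) / ((n:ℝ) + 1)) *
      ENNReal.ofReal (((n:ℝ) + 1) / n.factorial) := by
  rw [← ENNReal.ofReal_mul (by positivity), ← ENNReal.ofReal_mul (by positivity)]
  congr 1
  rw [Nat.factorial_succ]
  have h1 : (n.factorial : ℝ) ≠ 0 := by positivity
  push_cast
  field_simp
  rw [← pow_mul]
  rw [show (4:ℝ) = 2 ^ 2 by norm_num, ← pow_mul]
  ring

lemma chain (hZ : H712MA.S_Z) (hK : NB K) :
    ENNReal.ofReal ((4 : ℝ) ^ (n + 1) / (n + 1).factorial) ≤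
      volume (bodyL K) *
        (ENNReal.ofReal (2 ^ (n + 1) / ((n:ℝ) + 1)) * volume {y | gw K y < 1}) := by
  have h1 := H712MA.GB.coord hZ (sbody_L hK)
  have h2 := vol_plr_L hK
  rw [lint_hat hK] at h2
  exact h1.trans (mul_le_mul_right h2 _)

/-- **Makai's inequality** in coordinates -/
theorem makai_coord (hZ : H712MA.S_Z) (hK : NB K) :
    ENNReal.ofReal (((n:ℝ) + 1) / n.factorial) ≤ volume K * volume {y | gw K y < 1} := by
  have h1 := chain hZ hK
  have h2 := rs_slice hK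
  rw [← vol_L hK] at h2
  rw [const_eq] at h1
  set c := ENNReal.ofReal (2 ^ (n + 1) / ((n:ℝ) + 1)) with hc
  have hc0 : c ≠ 0 := (ENNReal.ofReal_pos.2 (by positivity)).ne'
  have hct : c ≠ ⊤ := ENNReal.ofReal_ne_top
  have h3 : c * c * ENNReal.ofReal (((n:ℝ) + 1) / n.factorial) ≤
      c * c * (volume K * volume {y | gw K y < 1}) := by
    refine h1.trans ?_
    calc volume (bodyL K) * (c * volume {y | gw K y < 1})
        ≤ (c * volume K) * (c * volume {y | gw K y < 1}) := mul_le_mul_left h2 _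
      _ = _ := by ring
  exact (ENNReal.mul_le_mul_iff_right (mul_ne_zero hc0 hc0) (ENNReal.mul_ne_top hct hct)).1 h3

/-- equality in Makai's inequality forces equality in the Rogers–Shephard inequality -/
theorem rs_of_eq (hZ : H712MA.S_Z) (hK : NB K)
    (h : volume K * volume {y | gw K y < 1} ≤ ENNReal.ofReal (((n:ℝ) + 1) / n.factorial)) :
    ENNReal.ofReal (2 ^ (n + 1) / ((n:ℝ) + 1)) * volume K ≤ volume (bodyL K) := by
  have h1 := chain hZ hK
  rw [const_eq] at h1
  set c := ENNReal.ofReal (2 ^ (n + 1) / ((n:ℝ) + 1)) with hc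
  have hc0 : c ≠ 0 := (ENNReal.ofReal_pos.2 (by positivity)).ne'
  have hct : c ≠ ⊤ := ENNReal.ofReal_ne_top
  have h3 : (c * volume {y | gw K y < 1}) * (c * volume K) ≤
      (c * volume {y | gw K y < 1}) * volume (bodyL K) := by
    calc (c * volume {y | gw K y < 1}) * (c * volume K)
        = c * c * (volume K * volume {y | gw K y < 1}) := by ring
      _ ≤ c * c * ENNReal.ofReal (((n:ℝ) + 1) / n.factorial) := mul_le_mul_right h _
      _ ≤ _ := h1
      _ = _ := by ring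
  exact (ENNReal.mul_le_mul_iff_right (mul_ne_zero hc0 (gw_vol_pos hK).ne')
    (ENNReal.mul_ne_top hct (gw_vol_fin hK))).1 h3

/-! ### the cone over `K` -/

/-- the height functional -/
noncomputable def e0 (n : ℕ) : Fin (n + 1) → ℝ := Pi.single 0 1

lemma dot_e0 (z : Fin (n + 1) → ℝ) : z ⬝ᵥ e0 n = z 0 := by
  rw [e0, dotProduct_single, mul_one]

lemma mem_coneOver {z : Fin (n + 1) → ℝ} :
    z ∈ coneOver K ↔ 0 ≤ z 0 ∧ ∃ x ∈ K, Fin.tail z = z 0 • x := by
  constructor
  · rintro ⟨t, ht, x, hx, rfl⟩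
    exact ⟨by simpa using ht, x, hx, by simp⟩
  · rintro ⟨h0, x, hx, h⟩
    refine ⟨z 0, h0, x, hx, ?_⟩
    rw [← h]
    exact (Fin.cons_self_tail z).symm

lemma coneOver_le_compact (hK : NB K) (R : ℝ) : IsCompact (coneOver K ∩ {z | z 0 ≤ R}) := by
  have h1 : coneOver K ∩ {z | z 0 ≤ R} =
      (fun p : ℝ × (Fin n → ℝ) => (Fin.cons p.1 (p.1 • p.2) : Fin (n + 1) → ℝ)) ''
        (Icc 0 R ×ˢ K) := by
    ext z
    constructor
    · rintro ⟨⟨t, ht, x, hx, rfl⟩, h2⟩
      exact ⟨(t, x), ⟨⟨ht, by simpa using h2⟩, hx⟩, rfl⟩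
    · rintro ⟨⟨t, x⟩, ⟨⟨ht, htR⟩, hx⟩, rfl⟩
      exact ⟨⟨t, ht, x, hx, rfl⟩, by simpa using htR⟩
  rw [h1]
  refine (isCompact_Icc.prod hK.comp).image ?_
  refine continuous_pi fun i => ?_
  refine Fin.cases ?_ (fun j => ?_) i
  · simp only [Fin.cons_zero]; fun_prop
  · simp only [Fin.cons_succ]; fun_prop

lemma coneOver_closed (hK : NB K) : IsClosed (coneOver K) := by
  refine isClosed_of_closure_subset fun z hz => ?_
  have hU : IsOpen {w : Fin (n + 1) → ℝ | w 0 < z 0 + 1} :=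
    isOpen_lt (continuous_apply 0) continuous_const
  have h1 : z ∈ closure ({w : Fin (n + 1) → ℝ | w 0 < z 0 + 1} ∩ coneOver K) :=
    hU.inter_closure ⟨by simp, hz⟩
  have h2 : closure ({w : Fin (n + 1) → ℝ | w 0 < z 0 + 1} ∩ coneOver K) ⊆
      coneOver K ∩ {w | w 0 ≤ z 0 + 1} := by
    refine closure_minimal ?_ (coneOver_le_compact hK _).isClosed
    rintro w ⟨h3, h4⟩
    have h3 : w 0 < z 0 + 1 := h3
    exact ⟨h4, show w 0 ≤ z 0 + 1 from le_of_lt h3⟩
  exact (h2 h1).1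

lemma coneOver_convex (hK : NB K) : Convex ℝ (coneOver K) := by
  rintro z ⟨t, ht, x, hx, rfl⟩ w ⟨s, hs, y, hy, rfl⟩ a b ha hb hab
  have h1 : (a * t) • x + (b * s) • y ∈ (a * t + b * s) • K := by
    rw [hK.conv.add_smul (mul_nonneg ha ht) (mul_nonneg hb hs)]
    exact Set.add_mem_add ⟨x, hx, rfl⟩ ⟨y, hy, rfl⟩
  obtain ⟨u, hu, h2⟩ := h1
  refine ⟨a * t + b * s, add_nonneg (mul_nonneg ha ht) (mul_nonneg hb hs), u, hu, ?_⟩
  simp only at h2
  rw [h2]
  funext j
  refine Fin.cases ?_ (fun k => ?_) j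
  · simp
  · simp [mul_assoc]

lemma coneOver_CN (hK : NB K) : Pool.Agent.TH537.EQ.CN (coneOver K) where
  closed := coneOver_closed hK
  convex := coneOver_convex hK
  smul := by
    rintro t ht _ ⟨s, hs, x, hx, rfl⟩
    refine ⟨t * s, mul_nonneg ht hs, x, hx, ?_⟩
    funext j
    refine Fin.cases ?_ (fun k => ?_) j
    · simp
    · simp [mul_assoc]
  int := by
    obtain ⟨r, hr, hb⟩ := Metric.mem_nhds_iff.1 (mem_interior_iff_mem_nhds.1 hK.zero)
    refine ⟨Fin.cons 1 0, ?_⟩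
    rw [mem_interior_iff_mem_nhds, Metric.mem_nhds_iff]
    refine ⟨min (1 / 2) (r / 2), by positivity, fun z hz => ?_⟩
    rw [mem_ball_iff_norm] at hz
    have h0 : |z 0 - 1| < 1 / 2 := by
      have := (norm_le_pi_norm (z - Fin.cons 1 0) 0).trans_lt hz
      rw [Real.norm_eq_abs] at this
      simpa using this.trans_le (min_le_left _ _)
    rw [abs_lt] at h0
    have hz0 : 0 < z 0 := by linarith
    rw [mem_coneOver]
    refine ⟨hz0.le, (z 0)⁻¹ • Fin.tail z, ?_, ?_⟩
    · apply hb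
      rw [mem_ball_zero_iff, norm_smul, Real.norm_eq_abs, abs_of_pos (by positivity)]
      have h1 : ‖Fin.tail z‖ < r / 2 := by
        refine lt_of_le_of_lt ?_ (hz.trans_le (min_le_right _ _))
        rw [pi_norm_le_iff_of_nonneg (norm_nonneg _)]
        intro i
        have := norm_le_pi_norm (z - Fin.cons 1 0) i.succ
        simpa [Fin.tail] using this
      have h2 : (z 0)⁻¹ ≤ 2 := by
        rw [inv_le_comm₀ hz0 (by norm_num)]
        linarith
      have h3 : 0 ≤ ‖Fin.tail z‖ := norm_nonneg _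
      nlinarith
    · rw [smul_smul, mul_inv_cancel₀ hz0.ne', one_smul]

lemma coneOver_pos : Pool.Agent.TH537.EQ.Pos (coneOver K) (e0 n) := by
  rintro _ ⟨t, ht, x, hx, rfl⟩ hne
  rw [dot_e0, Fin.cons_zero]
  rcases ht.lt_or_eq with h | h
  · exact h
  · exfalso
    apply hne
    rw [← h, zero_smul]
    funext j
    refine Fin.cases ?_ (fun k => ?_) j <;> simp

/-- volume of the truncated cone -/
lemma vol_T (hK : NB K) : volume (T (coneOver K) (e0 n)) =
    ENNReal.ofReal (1 / ((n:ℝ) + 1)) * volume K := by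
  have hT : T (coneOver K) (e0 n) = coneOver K ∩ {z | z 0 ≤ 1} := by
    ext z
    simp only [T, mem_ofPred_eq, dot_e0, mem_inter_iff]
  rw [hT, vol_split _ (coneOver_le_compact hK 1).measurableSet]
  have hm : MeasurableSet {p : ℝ × (Fin n → ℝ) |
      (Fin.cons p.1 p.2 : Fin (n + 1) → ℝ) ∈ coneOver K ∩ {z | z 0 ≤ 1}} := by
    have hcont : Continuous (fun p : ℝ × (Fin n → ℝ) => (Fin.cons p.1 p.2 : Fin (n + 1) → ℝ)) := by
      refine continuous_pi fun i => ?_
      refine Fin.cases ?_ (fun j => ?_) i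
      · simp only [Fin.cons_zero]; fun_prop
      · simp only [Fin.cons_succ]; fun_prop
    exact ((coneOver_le_compact hK 1).isClosed.preimage hcont).measurableSet
  rw [Measure.prod_apply hm]
  have h1 : ∀ᵐ s : ℝ, volume (Prod.mk s ⁻¹' {p : ℝ × (Fin n → ℝ) |
      (Fin.cons p.1 p.2 : Fin (n + 1) → ℝ) ∈ coneOver K ∩ {z | z 0 ≤ 1}}) =
      (Ioc (0:ℝ) 1).indicator (fun s => ENNReal.ofReal (s ^ n) * volume K) s := by
    have h0 : ∀ᵐ s : ℝ, s ≠ 0 := by
      rw [ae_iff]
      simp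
    filter_upwards [h0] with s hs0
    by_cases hs : s ∈ Ioc (0:ℝ) 1
    · rw [indicator_of_mem hs]
      have : Prod.mk s ⁻¹' {p : ℝ × (Fin n → ℝ) |
          (Fin.cons p.1 p.2 : Fin (n + 1) → ℝ) ∈ coneOver K ∩ {z | z 0 ≤ 1}} = s • K := by
        ext y
        simp only [mem_preimage, mem_ofPred_eq, mem_inter_iff, mem_coneOver, Fin.cons_zero,
          Fin.tail_cons]
        constructor
        · rintro ⟨⟨_, x, hx, rfl⟩, _⟩
          exact ⟨x, hx, rfl⟩
        · rintro ⟨x, hx, rfl⟩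
          exact ⟨⟨hs.1.le, x, hx, rfl⟩, hs.2⟩
      rw [this, Measure.addHaar_smul, Module.finrank_pi, Fintype.card_fin,
        abs_of_pos (pow_pos hs.1 _)]
    · rw [indicator_of_notMem hs]
      convert measure_empty (μ := (volume : Measure (Fin n → ℝ)))
      ext y
      simp only [mem_preimage, mem_ofPred_eq, mem_inter_iff, mem_coneOver, Fin.cons_zero,
        Fin.tail_cons, mem_empty_iff_false, iff_false]
      rintro ⟨⟨h2, _⟩, h3⟩
      exact hs ⟨lt_of_le_of_ne h2 (Ne.symm hs0), h3⟩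
  rw [lintegral_congr_ae h1, lintegral_indicator measurableSet_Ioc, lintegral_mul_const]
  swap
  · exact (by fun_prop : Continuous (fun t : ℝ => t ^ n)).measurable.ennreal_ofReal
  congr 1
  have hint : IntegrableOn (fun t : ℝ => t ^ n) (Ioc 0 1) :=
    ((by fun_prop : Continuous (fun t : ℝ => t ^ n)).integrableOn_Icc).mono_set Ioc_subset_Icc_self
  rw [← ofReal_integral_eq_lintegral_ofReal hint ((ae_restrict_iff' measurableSet_Ioc).2
    (Filter.Eventually.of_forall fun t ht => by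
      have ht0 : (0:ℝ) < t := ht.1
      simp only [Pi.zero_apply]
      positivity))]
  rw [← intervalIntegral.integral_of_le (by norm_num), integral_pow]
  norm_num

/-- the body `conv(K × 1 ∪ -K × -1)`, halved, is contained in `HT` -/
lemma half_bodyL_subset : (1 / 2 : ℝ) • bodyL K ⊆ HT (coneOver K) (e0 n) (1 / 2) := by
  rintro _ ⟨z, ⟨h0, a, ha, b, hb, h⟩, rfl⟩
  have hmem : ∀ x ∈ K, (Fin.cons 1 x : Fin (n + 1) → ℝ) ∈ T (coneOver K) (e0 n) := by
    intro x hx
    refine ⟨⟨1, zero_le_one, x, hx, by simp⟩, ?_⟩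
    rw [dot_e0]; simp
  have h1 : ((1 - 1 / 2 : ℝ)) • (Fin.cons 1 a : Fin (n + 1) → ℝ) ∈
      HT (coneOver K) (e0 n) (1 / 2) :=
    subset_convexHull ℝ _ (Or.inl ⟨_, hmem a ha, rfl⟩)
  have h2 : ((-(1 / 2) : ℝ)) • (Fin.cons 1 b : Fin (n + 1) → ℝ) ∈
      HT (coneOver K) (e0 n) (1 / 2) :=
    subset_convexHull ℝ _ (Or.inr ⟨_, hmem b hb, rfl⟩)
  have h3 := (convex_convexHull ℝ _) h1 h2 (a := (1 + z 0) / 2) (b := (1 - z 0) / 2)
    (by linarith [h0.1]) (by linarith [h0.2]) (by ring)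
  have h4 : (1 / 2 : ℝ) • z = ((1 + z 0) / 2) • ((1 - 1 / 2 : ℝ)) • (Fin.cons 1 a : Fin (n + 1) → ℝ) +
      ((1 - z 0) / 2) • ((-(1 / 2) : ℝ)) • (Fin.cons 1 b : Fin (n + 1) → ℝ) := by
    funext j
    refine Fin.cases ?_ (fun k => ?_) j
    · simp; ring
    · have h5 := congrFun h k
      simp only [Fin.tail, Pi.sub_apply, Pi.smul_apply, smul_eq_mul] at h5
      simp only [Pi.smul_apply, smul_eq_mul, Pi.add_apply, Fin.cons_succ, h5]
      ring
  show (1 / 2 : ℝ) • z ∈ _
  rw [h4]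
  exact h3

/-- equality in Makai's inequality gives the hypothesis of `S_RS` -/
theorem vol_T_le_HT (hZ : H712MA.S_Z) (hK : NB K)
    (h : volume K * volume {y | gw K y < 1} ≤ ENNReal.ofReal (((n:ℝ) + 1) / n.factorial)) :
    volume (T (coneOver K) (e0 n)) ≤ volume (HT (coneOver K) (e0 n) (1 / 2)) := by
  refine le_trans ?_ (measure_mono half_bodyL_subset)
  rw [Measure.addHaar_smul, Module.finrank_pi, Fintype.card_fin, vol_T hK]
  calc ENNReal.ofReal (1 / ((n:ℝ) + 1)) * volume K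
      = ENNReal.ofReal |(1 / 2 : ℝ) ^ (n + 1)| *
          (ENNReal.ofReal (2 ^ (n + 1) / ((n:ℝ) + 1)) * volume K) := by
        rw [← mul_assoc, ← ENNReal.ofReal_mul (abs_nonneg _), abs_of_pos (by positivity)]
        congr 2
        rw [one_div, one_div, inv_pow]
        field_simp
    _ ≤ _ := mul_le_mul_right (rs_of_eq hZ hK h) _

/-- **(B)** equality in Makai's inequality forces `K` to be a simplex -/
theorem simplex_of_eq (hRS : S_RS) (hLC : S_LC) (hZ : H712MA.S_Z) (hK : NB K)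
    (h : volume K * volume {y | gw K y < 1} ≤ ENNReal.ofReal (((n:ℝ) + 1) / n.factorial)) :
    ∃ p : Fin (n + 1) → (Fin n → ℝ), AffineIndependent ℝ p ∧ K = convexHull ℝ (range p) := by
  have hCN := coneOver_CN hK
  have hPos : Pos (coneOver K) (e0 n) := coneOver_pos
  obtain ⟨b, hb, hC⟩ := hLC _ _ _ hCN hPos (hRS _ _ _ hCN hPos (vol_T_le_HT hZ hK h))
  exact simplex_of_coneOver hK.conv b hb hC

end Pool.Agent.TH648.MK
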