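import Pool.Agent.TH648.MK.Bridge

/-!
# Simplices give equality in Makai's inequality `|K| |(K-K)°| ≥ (n+1)/n!`
-/

set_option autoImplicit false

open MeasureTheory Set
open scoped ENNReal Pointwise Matrix

namespace Pool.Agent.TH648.MK

open Pool.Agent.H845R2 Pool.Agent.H845R3 Pool.Agent.H296R3.NM
open Pool.Agent.TH537.EQ (CN Pos T HT S_RS S_LC)

variable {n : ℕ} {K : Set (Fin n → ℝ)}

lemma cons_dot (t : ℝ) (x : Fin n → ℝ) (w : Fin (n + 1) → ℝ) :
    (Fin.cons t x : Fin (n + 1) → ℝ) ⬝ᵥ w = t * w 0 + x ⬝ᵥ Fin.tail w := by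
  unfold dotProduct
  rw [Fin.sum_univ_succ]
  simp [Fin.tail]

/-- the symmetric polar of the truncated cone -/
lemma spolar_eq (hK : NB K) :
    {y : Fin (n + 1) → ℝ | ∀ x, x ∈ coneOver K → x ⬝ᵥ e0 n ≤ 1 → |x ⬝ᵥ y| ≤ 1} =
      {w : Fin (n + 1) → ℝ | w 0 ∈ Icc (hs K (-Fin.tail w) - 1) (1 - hs K (Fin.tail w))} := by
  ext w
  constructor
  · intro hw
    have key : ∀ x ∈ K, |w 0 + x ⬝ᵥ Fin.tail w| ≤ 1 := by
      intro x hx
      have := hw (Fin.cons 1 x) ⟨1, zero_le_one, x, hx, by simp⟩ (by rw [dot_e0]; simp)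
      rwa [cons_dot, one_mul] at this
    constructor
    · have h := hK.hs_le (-Fin.tail w) (1 + w 0) (fun y hy => ?_)
      · linarith
      have h1 := (abs_le.1 (key y hy)).1
      rw [neg_dotProduct, dotProduct_comm]
      linarith
    · have h := hK.hs_le (Fin.tail w) (1 - w 0) (fun y hy => ?_)
      · linarith
      have h1 := (abs_le.1 (key y hy)).2
      rw [dotProduct_comm]
      linarith
  · rintro ⟨h1, h2⟩ _ ⟨t, ht, x, hx, rfl⟩ h3
    rw [dot_e0, Fin.cons_zero] at h3
    rw [cons_dot, smul_dotProduct, smul_eq_mul, ← mul_add, abs_mul, abs_of_nonneg ht]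
    have h4 := hK.le_hs (Fin.tail w) hx
    have h5 := hK.le_hs (-Fin.tail w) hx
    rw [neg_dotProduct, dotProduct_comm] at h5
    rw [dotProduct_comm] at h4
    have h6 : |w 0 + x ⬝ᵥ Fin.tail w| ≤ 1 := by
      rw [abs_le]
      constructor <;> linarith
    nlinarith [abs_nonneg (w 0 + x ⬝ᵥ Fin.tail w)]

/-- its volume -/
lemma vol_spolar (hK : NB K) :
    volume {y : Fin (n + 1) → ℝ | ∀ x, x ∈ coneOver K → x ⬝ᵥ e0 n ≤ 1 → |x ⬝ᵥ y| ≤ 1} =
      ENNReal.ofReal (2 ^ (n + 1) / ((n:ℝ) + 1)) * volume {y | gw K y < 1} := by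
  have hc := hK.continuous_hs
  rw [spolar_eq hK, ← lint_hat hK]
  have hcl : MeasurableSet {w : Fin (n + 1) → ℝ |
      w 0 ∈ Icc (hs K (-Fin.tail w) - 1) (1 - hs K (Fin.tail w))} := by
    have ht : Continuous (fun w : Fin (n + 1) → ℝ => Fin.tail w) :=
      continuous_pi fun i => continuous_apply i.succ
    exact ((isClosed_le (f := fun w : Fin (n + 1) → ℝ => hs K (-Fin.tail w) - 1)
      (g := fun w => w 0) (by fun_prop) (by fun_prop)).inter
      (isClosed_le (f := fun w : Fin (n + 1) → ℝ => w 0)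
      (g := fun w => 1 - hs K (Fin.tail w)) (by fun_prop) (by fun_prop))).measurableSet
  rw [vol_split _ hcl]
  have he : {p : ℝ × (Fin n → ℝ) | (Fin.cons p.1 p.2 : Fin (n + 1) → ℝ) ∈
      {w : Fin (n + 1) → ℝ | w 0 ∈ Icc (hs K (-Fin.tail w) - 1) (1 - hs K (Fin.tail w))}} =
      {p : ℝ × (Fin n → ℝ) | hs K (-p.2) - 1 ≤ p.1 ∧ p.1 ≤ 1 - hs K p.2} := by
    ext p
    simp
  rw [he]
  have hm : MeasurableSet {p : ℝ × (Fin n → ℝ) | hs K (-p.2) - 1 ≤ p.1 ∧ p.1 ≤ 1 - hs K p.2} :=
    ((isClosed_le (f := fun p : ℝ × (Fin n → ℝ) => hs K (-p.2) - 1) (g := fun p => p.1)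
      (by fun_prop) (by fun_prop)).inter (isClosed_le (f := fun p : ℝ × (Fin n → ℝ) => p.1)
      (g := fun p => 1 - hs K p.2) (by fun_prop) (by fun_prop))).measurableSet
  rw [Measure.prod_apply_symm hm]
  refine lintegral_congr fun Y => ?_
  have : (fun x : ℝ => (x, Y)) ⁻¹' {p : ℝ × (Fin n → ℝ) | hs K (-p.2) - 1 ≤ p.1 ∧ p.1 ≤ 1 - hs K p.2} =
      Set.Icc (hs K (-Y) - 1) (1 - hs K Y) := by
    ext x; simp
  rw [this, Real.volume_Icc]
  congr 1
  unfold gw
  ring

/-- equality for simplices with the origin in the interior -/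
theorem simplex_value_NB (hK : NB K) (p : Fin (n + 1) → (Fin n → ℝ)) (hp : AffineIndependent ℝ p)
    (hKp : K = convexHull ℝ (range p)) :
    volume K * volume {y | gw K y < 1} = ENNReal.ofReal (((n:ℝ) + 1) / n.factorial) := by
  have hli := (affineIndependent_iff_cons p).1 hp
  have hC : coneOver K = {z | ∃ t : Fin (n + 1) → ℝ, (∀ i, 0 ≤ t i) ∧
        z = ∑ i, t i • (Fin.cons 1 (p i) : Fin (n + 1) → ℝ)} := by
    rw [hKp]; exact coneOver_simplex p
  have h1 := simplex_cone_value _ hli (e0 n) (fun i => by rw [dot_e0]; simp) hC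
  rw [vol_spolar hK] at h1
  have h2 : volume {x | x ∈ coneOver K ∧ x ⬝ᵥ e0 n ≤ 1} =
      ENNReal.ofReal (1 / ((n:ℝ) + 1)) * volume K := vol_T hK
  rw [h2] at h1
  set a := ENNReal.ofReal (1 / ((n:ℝ) + 1)) with ha
  set c := ENNReal.ofReal (2 ^ (n + 1) / ((n:ℝ) + 1)) with hc
  have ha0 : a ≠ 0 := (ENNReal.ofReal_pos.2 (by positivity)).ne'
  have hat : a ≠ ⊤ := ENNReal.ofReal_ne_top
  have hc0 : c ≠ 0 := (ENNReal.ofReal_pos.2 (by positivity)).ne'
  have hct : c ≠ ⊤ := ENNReal.ofReal_ne_top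
  have h3 : a * c * (volume K * volume {y | gw K y < 1}) =
      a * c * ENNReal.ofReal (((n:ℝ) + 1) / n.factorial) := by
    calc a * c * (volume K * volume {y | gw K y < 1})
        = a * volume K * (c * volume {y | gw K y < 1}) := by ring
      _ = _ := h1
      _ = _ := by
        rw [ha, hc, ← ENNReal.ofReal_mul (by positivity), ← ENNReal.ofReal_mul (by positivity)]
        congr 1
        rw [Nat.factorial_succ]
        have h1 : (n.factorial : ℝ) ≠ 0 := by positivity
        push_cast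
        field_simp
  exact (ENNReal.mul_right_inj (mul_ne_zero ha0 hc0) (ENNReal.mul_ne_top hat hct)).1 h3

/-- `(K - K)°` and `{gw < 1}` have the same volume -/
lemma vol_polar_diff (hK : NB K) :
    volume {y : Fin n → ℝ | ∀ x ∈ K, ∀ x' ∈ K, (x - x') ⬝ᵥ y ≤ 1} = volume {y | gw K y < 1} := by
  have h1 : {y : Fin n → ℝ | ∀ x ∈ K, ∀ x' ∈ K, (x - x') ⬝ᵥ y ≤ 1} = {y | gw K y ≤ 1} := by
    ext y
    constructor
    · intro h
      have h2 : ∀ x' ∈ K, hs K y ≤ 1 + x' ⬝ᵥ y := by
        intro x' hx'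
        refine hK.hs_le y _ fun x hx => ?_
        have := h x hx x' hx'
        rw [sub_dotProduct] at this
        rw [dotProduct_comm]
        linarith
      have h3 : hs K (-y) ≤ 1 - hs K y := by
        refine hK.hs_le _ _ fun x' hx' => ?_
        have := h2 x' hx'
        rw [neg_dotProduct, dotProduct_comm]
        linarith
      show hs K y + hs K (-y) ≤ 1
      linarith
    · intro h x hx x' hx'
      have h' : hs K y + hs K (-y) ≤ 1 := h
      have h4 := hK.le_hs y hx
      have h5 := hK.le_hs (-y) hx'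
      rw [neg_dotProduct, dotProduct_comm] at h5
      rw [dotProduct_comm] at h4
      rw [sub_dotProduct]
      linarith
  rw [h1]
  refine le_antisymm (vol_le_one hK) (measure_mono fun y (hy : gw K y < 1) =>
    show gw K y ≤ 1 from le_of_lt hy)

/-- translations -/
lemma NB_translate {z : Fin n → ℝ} (hc : IsCompact K) (hv : Convex ℝ K) (hz : z ∈ interior K) :
    NB ((fun x => x - z) '' K) where
  comp := hc.image (by fun_prop)
  conv := by
    have h := hv.translate (-z)
    have e : (fun x => x - z) '' K = (fun x => -z + x) '' K := by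
      congr 1
      funext x
      abel
    rw [e]
    exact h
  zero := by
    have e : (fun x : Fin n → ℝ => x - z) = (Homeomorph.subRight z : (Fin n → ℝ) → (Fin n → ℝ)) := by
      funext x; simp
    rw [e, ← Homeomorph.image_interior]
    exact ⟨z, hz, by simp⟩

lemma vol_translate (z : Fin n → ℝ) : volume ((fun x => x - z) '' K) = volume K := by
  rw [image_sub_right, measure_preimage_add_right]

lemma polar_translate (z : Fin n → ℝ) :
    {y : Fin n → ℝ | ∀ x ∈ (fun x => x - z) '' K, ∀ x' ∈ (fun x => x - z) '' K, (x - x') ⬝ᵥ y ≤ 1} =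
      {y : Fin n → ℝ | ∀ x ∈ K, ∀ x' ∈ K, (x - x') ⬝ᵥ y ≤ 1} := by
  ext y
  simp only [mem_ofPred_eq, forall_mem_image, sub_sub_sub_cancel_right]

/-- **(A')** Makai's inequality, any position -/
theorem makai_any (hZ : H712MA.S_Z) (hc : IsCompact K) (hv : Convex ℝ K)
    (hi : (interior K).Nonempty) :
    ENNReal.ofReal (((n:ℝ) + 1) / n.factorial) ≤
      volume K * volume {y : Fin n → ℝ | ∀ x ∈ K, ∀ x' ∈ K, (x - x') ⬝ᵥ y ≤ 1} := by
  obtain ⟨z, hz⟩ := hi
  have hK := NB_translate hc hv hz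
  have h := makai_coord hZ hK
  rwa [← vol_polar_diff hK, vol_translate, polar_translate] at h

/-- **(C)** simplices give equality, any position -/
theorem simplex_value (p : Fin (n + 1) → (Fin n → ℝ)) (hp : AffineIndependent ℝ p)
    (hKp : K = convexHull ℝ (range p)) :
    volume K * volume {y : Fin n → ℝ | ∀ x ∈ K, ∀ x' ∈ K, (x - x') ⬝ᵥ y ≤ 1} =
      ENNReal.ofReal (((n:ℝ) + 1) / n.factorial) := by
  have hc : IsCompact K := by
    rw [hKp]; exact (finite_range p).isCompact_convexHull (𝕜 := ℝ)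
  have hv : Convex ℝ K := by rw [hKp]; exact convex_convexHull ℝ _
  have hi : (interior K).Nonempty := by
    rw [hKp, interior_convexHull_nonempty_iff_affineSpan_eq_top]
    exact hp.affineSpan_eq_top_iff_card_eq_finrank_add_one.2 (by simp)
  obtain ⟨z, hz⟩ := hi
  have hK := NB_translate hc hv hz
  have h := simplex_value_NB hK (fun i => p i - z) ?_ ?_
  · rwa [← vol_polar_diff hK, vol_translate, polar_translate] at h
  · have h2 := hp.vadd (v := -z)
    convert h2 using 1
    funext i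
    simp [Pi.vadd_apply, vadd_eq_add]
    abel
  · rw [hKp]
    have h3 : range (fun i => p i - z) = (fun y => y - z) '' range p := by
      rw [← range_comp]; rfl
    rw [h3]
    have := (AffineMap.id ℝ (Fin n → ℝ) - AffineMap.const ℝ (Fin n → ℝ) z).image_convexHull (range p)
    exact this

/-- **(B')** equality forces a simplex, any position -/
theorem simplex_of_eq_any (hRS : S_RS) (hLC : S_LC) (hZ : H712MA.S_Z) (hc : IsCompact K)
    (hv : Convex ℝ K) (hi : (interior K).Nonempty)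
    (h : volume K * volume {y : Fin n → ℝ | ∀ x ∈ K, ∀ x' ∈ K, (x - x') ⬝ᵥ y ≤ 1} ≤
      ENNReal.ofReal (((n:ℝ) + 1) / n.factorial)) :
    ∃ p : Fin (n + 1) → (Fin n → ℝ), AffineIndependent ℝ p ∧ K = convexHull ℝ (range p) := by
  obtain ⟨z, hz⟩ := hi
  have hK := NB_translate hc hv hz
  rw [← polar_translate z, vol_polar_diff hK, ← vol_translate z] at h
  obtain ⟨p, hp, hKp⟩ := simplex_of_eq hRS hLC hZ hK h
  refine ⟨fun i => p i + z, ?_, ?_⟩
  · have h2 := hp.vadd (v := z)
    convert h2 using 1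
    funext i
    simp [Pi.vadd_apply, vadd_eq_add]
    abel
  · have h3 : range (fun i => p i + z) = (fun y => y + z) '' range p := by
      rw [← range_comp]; rfl
    rw [h3]
    have h4 := (AffineMap.id ℝ (Fin n → ℝ) + AffineMap.const ℝ (Fin n → ℝ) z).image_convexHull (range p)
    have h5 : K = (fun y => y + z) '' ((fun x => x - z) '' K) := by
      rw [image_image]; simp
    rw [h5, hKp]
    exact h4

end Pool.Agent.TH648.MK
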